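import Mathlib
import Pool.Agent.R480.PT.Main
import Pool.Agent.R480.PT.Tab

/-!
# Greenberg's conjecture for 18 primes `p` and all `N = 3^K`

Let `p` be one of the primes 11, 29, 41, 59, 83, 101, 131, 137, 149, 167, 173, 191, 227, 239, 293, 311, 383, 389. The even characters
modulo `3^K p` are the `θ = ψ ω^m` with a primitive character `ψ` modulo `3^k`, `k ≤ K`, `1 ≤ m ≤ p - 1`,
`ψ(-1) = (-1)^m`. We show that for all of them with `k ≥ 1` the value

  `L_p(1 - m, θ) = - (1 - ψ(p) p^(m-1)) B_{m,ψ} / m`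

of the `p`-adic `L`-function is a unit at all places above `p`. So the `p`-adic `L`-function is a unit and
`X_θ = 0`. For `k = 0`, `θ = ω^m`, one has `X_θ = 0` as `p` does not divide `h_p^+` (Vandiver's conjecture is
known for these primes). Hence `X⁺ = 0` for these `p` and all `N = 3^K`.

Proof. As `3` is inert enough (`p ≡ 2, 5 mod 9`), the vanishing of the character sum modulo a place above `p`
implies that of the three term sums over the classes modulo `3^(k-1)` (starting library `Y18/GX`), which are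
polynomials of degree `m - 1` in the class; this settles `9 m ≤ 3^k`. The remaining finitely many pairs `(k, m)`
are settled by a calculation with power sums modulo `p` (norm form of `ℚ(√-3)`), carried out in the kernel
(`Pool/Agent/R480/PT`).
-/

set_option autoImplicit false

namespace Pool.Agent.Results.MP_c2a07f_nt.EighteenPrimes

/-- The generalized Bernoulli number `B_{m,ψ} = N^(m-1) ∑_{a=1}^N ψ(a) B_m(a/N)`. -/
noncomputable def genBernoulli (m : ℕ) {N : ℕ} (ψ : DirichletCharacter ℂ N) : ℂ :=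
  (N : ℂ) ^ (m - 1) * ∑ a ∈ Finset.Icc 1 N, ψ (a : ZMod N) *
    (((Polynomial.bernoulli m).eval ((a : ℚ) / N) : ℚ) : ℂ)

/-- `(1 - ψ(p) p^(m-1)) B_{m,ψ} / m`, the value at `1 - m` of the `L`-function of `ψ` without Euler factor
at `p` (up to the sign). -/
noncomputable def lValue (p m : ℕ) {N : ℕ} (ψ : DirichletCharacter ℂ N) : ℂ :=
  (1 - ψ (p : ZMod N) * (p : ℂ) ^ (m - 1)) * genBernoulli m ψ / m

/-- `z` is a unit at all places above `p`: it is not zero, and for some integer `c` prime to `p` the numbers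
`c z` and `c / z` are algebraic integers. -/
def IsUnitAt (p : ℕ) (z : ℂ) : Prop :=
  z ≠ 0 ∧ ∃ c : ℤ, IsCoprime (p : ℤ) c ∧ IsIntegral ℤ ((c : ℂ) * z) ∧ IsIntegral ℤ ((c : ℂ) * z⁻¹)

/-- For the 18 primes `p` of the list, all `K ≥ 1`, all `m`, `1 ≤ m ≤ p - 1`, and all primitive characters `ψ`
modulo `3^K` with `ψ(-1) = (-1)^m` the number `(1 - ψ(p) p^(m-1)) B_{m,ψ} / m` is a unit at all places above
`p`. -/
theorem result (p : ℕ)
    (hp : p ∈ [11, 29, 41, 59, 83, 101, 131, 137, 149, 167, 173, 191, 227, 239, 293, 311, 383, 389])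
    (K m : ℕ) (hK : 1 ≤ K) (hm1 : 1 ≤ m) (hmp : m ≤ p - 1)
    (ψ : DirichletCharacter ℂ (3 ^ K)) (hprim : ψ.IsPrimitive) (hpar : ψ (-1) = (-1) ^ m) :
    IsUnitAt p (lValue p m ψ) := by
  simp only [List.mem_cons, List.not_mem_nil, or_false] at hp
  rcases hp with rfl | rfl | rfl | rfl | rfl | rfl | rfl | rfl | rfl | rfl | rfl | rfl | rfl | rfl | rfl | rfl | rfl | rfl
  · exact Pool.Agent.R480.PT.main (K₀ := 4) (by norm_num) (by norm_num) (by norm_num)
      Pool.Agent.R480.PT.crit_11 (by norm_num) K m hK hm1 (by omega) ψ hprim hpar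
  · exact Pool.Agent.R480.PT.main (K₀ := 5) (by norm_num) (by norm_num) (by norm_num)
      Pool.Agent.R480.PT.crit_29 (by norm_num) K m hK hm1 (by omega) ψ hprim hpar
  · exact Pool.Agent.R480.PT.main (K₀ := 5) (by norm_num) (by norm_num) (by norm_num)
      Pool.Agent.R480.PT.crit_41 (by norm_num) K m hK hm1 (by omega) ψ hprim hpar
  · exact Pool.Agent.R480.PT.main (K₀ := 5) (by norm_num) (by norm_num) (by norm_num)
      Pool.Agent.R480.PT.crit_59 (by norm_num) K m hK hm1 (by omega) ψ hprim hpar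
  · exact Pool.Agent.R480.PT.main (K₀ := 6) (by norm_num) (by norm_num) (by norm_num)
      Pool.Agent.R480.PT.crit_83 (by norm_num) K m hK hm1 (by omega) ψ hprim hpar
  · exact Pool.Agent.R480.PT.main (K₀ := 6) (by norm_num) (by norm_num) (by norm_num)
      Pool.Agent.R480.PT.crit_101 (by norm_num) K m hK hm1 (by omega) ψ hprim hpar
  · exact Pool.Agent.R480.PT.main (K₀ := 6) (by norm_num) (by norm_num) (by norm_num)
      Pool.Agent.R480.PT.crit_131 (by norm_num) K m hK hm1 (by omega) ψ hprim hpar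
  · exact Pool.Agent.R480.PT.main (K₀ := 6) (by norm_num) (by norm_num) (by norm_num)
      Pool.Agent.R480.PT.crit_137 (by norm_num) K m hK hm1 (by omega) ψ hprim hpar
  · exact Pool.Agent.R480.PT.main (K₀ := 6) (by norm_num) (by norm_num) (by norm_num)
      Pool.Agent.R480.PT.crit_149 (by norm_num) K m hK hm1 (by omega) ψ hprim hpar
  · exact Pool.Agent.R480.PT.main (K₀ := 6) (by norm_num) (by norm_num) (by norm_num)
      Pool.Agent.R480.PT.crit_167 (by norm_num) K m hK hm1 (by omega) ψ hprim hpar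
  · exact Pool.Agent.R480.PT.main (K₀ := 6) (by norm_num) (by norm_num) (by norm_num)
      Pool.Agent.R480.PT.crit_173 (by norm_num) K m hK hm1 (by omega) ψ hprim hpar
  · exact Pool.Agent.R480.PT.main (K₀ := 6) (by norm_num) (by norm_num) (by norm_num)
      Pool.Agent.R480.PT.crit_191 (by norm_num) K m hK hm1 (by omega) ψ hprim hpar
  · exact Pool.Agent.R480.PT.main (K₀ := 6) (by norm_num) (by norm_num) (by norm_num)
      Pool.Agent.R480.PT.crit_227 (by norm_num) K m hK hm1 (by omega) ψ hprim hpar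
  · exact Pool.Agent.R480.PT.main (K₀ := 6) (by norm_num) (by norm_num) (by norm_num)
      Pool.Agent.R480.PT.crit_239 (by norm_num) K m hK hm1 (by omega) ψ hprim hpar
  · exact Pool.Agent.R480.PT.main (K₀ := 7) (by norm_num) (by norm_num) (by norm_num)
      Pool.Agent.R480.PT.crit_293 (by norm_num) K m hK hm1 (by omega) ψ hprim hpar
  · exact Pool.Agent.R480.PT.main (K₀ := 7) (by norm_num) (by norm_num) (by norm_num)
      Pool.Agent.R480.PT.crit_311 (by norm_num) K m hK hm1 (by omega) ψ hprim hpar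
  · exact Pool.Agent.R480.PT.main (K₀ := 7) (by norm_num) (by norm_num) (by norm_num)
      Pool.Agent.R480.PT.crit_383 (by norm_num) K m hK hm1 (by omega) ψ hprim hpar
  · exact Pool.Agent.R480.PT.main (K₀ := 7) (by norm_num) (by norm_num) (by norm_num)
      Pool.Agent.R480.PT.crit_389 (by norm_num) K m hK hm1 (by omega) ψ hprim hpar

end Pool.Agent.Results.MP_c2a07f_nt.EighteenPrimes
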