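import Mathlib
import Pool.Agent.R480.EC.Val

/-!
# Greenberg's conjecture: for every character `ψ` many of the eigenspaces `X_θ`, `θ = ψ ω^m`, vanish

Let `p` be a prime, `N < p`, `ψ` a Dirichlet character modulo `N` with values in `ℂ` and `B` a place
of `ℂ` above `p`; so `ψ`, `B` amounts to a character modulo `N` with values in `\bar ℚ_p`. The
`p`-adic `L`-function of the even character `θ = ψ ω^m` has the value
`L_p(1 - m, θ) = - (1 - ψ(p) p^(m-1)) B_{m,ψ} / m`. If it is a unit then this `L`-function is a unit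
and `X_θ = 0`. We show that this is so for at least `√(2M / ((φ(N) + 1) (φ(N) + 2))) - 2` of the `m`
with `2 ≤ m ≤ M`, for all `M ≤ p - 2`: for all characters and all primes `p > N`.

Proof. `(e^{Nt} - 1) ∑ B_{m,ψ} t^m / m! = t ∑_{a < N} ψ(a) e^{at}`. If only few of the coefficients
`B_{m,ψ}` with `m ≤ M` are not zero in the residue field, this gives an exponential polynomial over
a field of characteristic `p` with `φ(N) + 2` frequencies and few monomials for each of them that
vanishes to the order `M + 1`, which is impossible by the zero estimate of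
`Pool/Agent/TH350/RC/ZE.lean`.
-/

set_option autoImplicit false

namespace Pool.Agent.Results.MP_c2a07f_nt.EveryCharacter

open Finset

/-- The generalized Bernoulli number `B_{m,ψ} = N^(m-1) ∑_{a=1}^N ψ(a) B_m(a/N)`. -/
noncomputable def genBernoulli (m : ℕ) {N : ℕ} (ψ : DirichletCharacter ℂ N) : ℂ :=
  (N : ℂ) ^ (m - 1) * ∑ a ∈ Finset.Icc 1 N, ψ (a : ZMod N) *
    (((Polynomial.bernoulli m).eval ((a : ℚ) / N) : ℚ) : ℂ)

/-- `(1 - ψ(p) p^(m-1)) B_{m,ψ} / m`, the value at `1 - m` of the `L`-function of `ψ` without Euler factor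
at `p` (up to the sign). -/
noncomputable def lValue (p m : ℕ) {N : ℕ} (ψ : DirichletCharacter ℂ N) : ℂ :=
  (1 - ψ (p : ZMod N) * (p : ℂ) ^ (m - 1)) * genBernoulli m ψ / m

open Classical in
/-- Let `p` be a prime, `2 ≤ N < p`, `M ≤ p - 2`, `ψ` a Dirichlet character modulo `N` and `B` a
valuation ring of `ℂ` with `p` in its maximal ideal. The number `s` of the `m`, `2 ≤ m ≤ M`, such that
`(1 - ψ(p) p^(m-1)) B_{m,ψ} / m` is a unit of `B` satisfies
`2 M ≤ (φ(N) + 1) (φ(N) + 2) (s + 2)^2`. -/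
theorem result (p N M : ℕ) (hp : p.Prime) (hN : 2 ≤ N) (hNp : N < p) (hM : M + 2 ≤ p)
    (ψ : DirichletCharacter ℂ N) (B : ValuationSubring ℂ) (hB : B.valuation (p : ℂ) < 1) :
    2 * M ≤ (N.totient + 1) * (N.totient + 2) *
      ({m ∈ Finset.Icc 2 M | B.valuation (lValue p m ψ) = 1}.card + 2) ^ 2 := by
  have hch := Pool.Agent.Y18.GX.charP_res B hp hB
  have hN0 : N ≠ 0 := by omega
  have hNC : (N : ℂ) ≠ 0 := by exact_mod_cast hN0
  have hψB : ∀ a, ψ a ∈ B := Pool.Agent.Y18.GX.char_mem B hN0 ψ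
  rw [mul_comm (N.totient + 1)]
  refine Pool.Agent.R480.EC.count_val B hp hB N M hN hNp hM (fun a => ψ ((a : ℕ) : ZMod N))
    (by simp) (fun a => hψB _) (fun a ha => ?_) _ ?_
  · apply ψ.map_nonunit
    intro h
    exact ha ((ZMod.isUnit_iff_coprime a N).1 h)
  · intro m hm2 hmM hval
    rw [Finset.mem_filter, Finset.mem_Icc]
    refine ⟨⟨hm2, hmM⟩, ?_⟩
    have e1 : genBernoulli m ψ = Pool.Agent.R480.EC.bb N (fun a => ψ ((a : ℕ) : ZMod N)) m := by
      unfold genBernoulli Pool.Agent.R480.EC.bb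
      congr 1
      rw [eq_div_iff hNC, ← pow_succ, Nat.sub_add_cancel (by omega)]
    have hpm : ¬ p ∣ m := fun h => by
      have := Nat.le_of_dvd (by omega) h
      omega
    -- the Euler factor
    have e2 : B.valuation (1 - ψ (p : ZMod N) * (p : ℂ) ^ (m - 1)) = 1 := by
      have h1 : ((1 - ⟨ψ (p : ZMod N), hψB _⟩ * (p : B) ^ (m - 1) : B) : ℂ) =
          1 - ψ (p : ZMod N) * (p : ℂ) ^ (m - 1) := by
        push_cast
        rfl
      rw [← h1]
      apply Pool.Agent.Y18.GX.val_of_res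
      rw [map_sub, map_one, map_mul (IsLocalRing.residue B), map_pow, map_natCast (IsLocalRing.residue B)]
      have hp0 : ((p : ℕ) : IsLocalRing.ResidueField B) = 0 :=
        (CharP.cast_eq_zero_iff (IsLocalRing.ResidueField B) p p).2 dvd_rfl
      rw [hp0, zero_pow (by omega), mul_zero, sub_zero]
      exact one_ne_zero
    unfold lValue
    rw [map_div₀, map_mul, e1, e2, hval, Pool.Agent.Y18.GX.nat_val hp hB hpm]
    simp

end Pool.Agent.Results.MP_c2a07f_nt.EveryCharacter
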