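import Mathlib
import Pool.Agent.R480.GP.Val
import Pool.Agent.R480.GP.ValOne
import Pool.Agent.Results.MP_c2a07f_nt.FiveAndPowersOfThree

/-!
# Greenberg's conjecture: every long interval of exponents contains a vanishing eigenspace

Let `ψ` be a Dirichlet character modulo `N` and `B` a place of `ℂ` above the prime `p`; the `p`-adic
`L`-function of `θ = ψ ω^m` has the value `L_p(1 - m, θ) = - (1 - ψ(p) p^(m-1)) B_{m,ψ} / m`. If it is a unit
then this `L`-function is a unit and `X_θ = 0`. We show where such `m` can be found.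

(1) If `2 ≤ N < p` then every interval `[A, M]` with `2 ≤ A`, `2 A + 2 φ(N) ≤ M + 1`, `M ≤ p - 2` contains
such an `m`.

(2) For the levels `N = N₁ ℓ^K`, `ℓ = 2` or `3`, `K` large (no bound of `N` in terms of `p`), every interval
`[A, M]` with `2 ≤ A`, `3 A + 8 φ(N₁) ≤ M + 1`, `M ≤ p - 1` contains such an `m`.

Proof. (1) Let `Λ` be the linear functional `X^m ↦ B_{m,ψ}` in the residue field. Then
`Λ(f(X + N)) - Λ(f) = ∑ ψ(a) f'(a)`. Put
`f = (X (X - N))^A (X - 1) ∏ (X - a)²`, the product over the `a ≠ 1` prime to `N`. (2) is similar, with the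
functional of the sums over one class modulo `ℓ^(K-n)` (starting library `Y18/GX`, `R480/TC`) and three shifts.
-/

set_option autoImplicit false

namespace Pool.Agent.Results.MP_c2a07f_nt.EveryInterval

open Finset Pool.Agent.Y18.GX

/-- The generalized Bernoulli number `B_{m,ψ} = N^(m-1) ∑_{a=1}^N ψ(a) B_m(a/N)`. -/
noncomputable def genBernoulli (m : ℕ) {N : ℕ} (ψ : DirichletCharacter ℂ N) : ℂ :=
  (N : ℂ) ^ (m - 1) * ∑ a ∈ Finset.Icc 1 N, ψ (a : ZMod N) *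
    (((Polynomial.bernoulli m).eval ((a : ℚ) / N) : ℚ) : ℂ)

/-- `(1 - ψ(p) p^(m-1)) B_{m,ψ} / m`, the value at `1 - m` of the `L`-function of `ψ` without Euler factor
at `p` (up to the sign). -/
noncomputable def lValue (p m : ℕ) {N : ℕ} (ψ : DirichletCharacter ℂ N) : ℂ :=
  (1 - ψ (p : ZMod N) * (p : ℂ) ^ (m - 1)) * genBernoulli m ψ / m

lemma part_one (p N A M : ℕ) (hp : p.Prime) (hN : 2 ≤ N) (hNp : N < p) (hA : 2 ≤ A) (hM : M + 2 ≤ p)
    (hAM : 2 * A + 2 * N.totient ≤ M + 1)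
    (ψ : DirichletCharacter ℂ N) (B : ValuationSubring ℂ) (hB : B.valuation (p : ℂ) < 1) :
    ∃ m, A ≤ m ∧ m ≤ M ∧ B.valuation (lValue p m ψ) = 1 := by
  have hch := charP_res B hp hB
  have hN0 : N ≠ 0 := by omega
  have hNC : (N : ℂ) ≠ 0 := by exact_mod_cast hN0
  have hψB : ∀ a, ψ a ∈ B := char_mem B hN0 ψ
  obtain ⟨m, hmA, hmM, hval⟩ := Pool.Agent.R480.GP.one_val B hp hB N M A hN hNp hM hAM
    (fun a => ψ ((a : ℕ) : ZMod N)) (by simp) (fun a => hψB _) (fun a ha => by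
      apply ψ.map_nonunit
      intro h
      exact ha ((ZMod.isUnit_iff_coprime a N).1 h))
  refine ⟨m, hmA, hmM, ?_⟩
  have hm2 : 2 ≤ m := by omega
  have e1 : genBernoulli m ψ = Pool.Agent.R480.EC.bb N (fun a => ψ ((a : ℕ) : ZMod N)) m := by
    unfold genBernoulli Pool.Agent.R480.EC.bb
    congr 1
    rw [eq_div_iff hNC, ← pow_succ, Nat.sub_add_cancel (by omega)]
  have hpm : ¬ p ∣ m := fun h => by
    have := Nat.le_of_dvd (by omega) h
    omega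
  have e2 : B.valuation (1 - ψ (p : ZMod N) * (p : ℂ) ^ (m - 1)) = 1 := by
    have h1 : ((1 - ⟨ψ (p : ZMod N), hψB _⟩ * (p : B) ^ (m - 1) : B) : ℂ) =
        1 - ψ (p : ZMod N) * (p : ℂ) ^ (m - 1) := by
      push_cast
      rfl
    rw [← h1]
    apply val_of_res
    rw [map_sub, map_one, map_mul (IsLocalRing.residue B), map_pow, map_natCast (IsLocalRing.residue B)]
    have hp0 : ((p : ℕ) : IsLocalRing.ResidueField B) = 0 :=
      (CharP.cast_eq_zero_iff (IsLocalRing.ResidueField B) p p).2 dvd_rfl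
    rw [hp0, zero_pow (by omega), mul_zero, sub_zero]
    exact one_ne_zero
  unfold lValue
  rw [map_div₀, map_mul, e1, e2, hval, nat_val hp hB hpm]
  simp

lemma part_two (p ℓ N₁ g n K A M : ℕ) (hp : p.Prime) (hℓ : ℓ = 2 ∨ ℓ = 3) (hN1 : 1 ≤ N₁)
    (hN₁ : N₁.Coprime ℓ) (h2N : 2 * N₁ + 3 ≤ p) (hg : Even g) (hφ : N₁.totient ∣ p ^ g - 1)
    (hn : ℓ ^ n ∣ p ^ g - 1) (hn' : ¬ ℓ ^ (n + 1) ∣ p ^ g - 1)
    (hK : (2 * N₁ + 3) * N₁ * ℓ ^ (2 * n) ≤ ℓ ^ K) (hA : 2 ≤ A) (hM : M ≤ p - 1)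
    (hAM : 3 * A + 8 * N₁.totient ≤ M + 1)
    (ψ : DirichletCharacter ℂ (N₁ * ℓ ^ K)) (hc : ℓ ^ K ∣ ψ.conductor)
    (B : ValuationSubring ℂ) (hB : B.valuation (p : ℂ) < 1) :
    ∃ m, A ≤ m ∧ m ≤ M ∧ B.valuation (lValue p m ψ) = 1 := by
  have hℓp : ℓ.Prime := by rcases hℓ with rfl | rfl <;> norm_num
  have hN0 : N₁ ≠ 0 := by omega
  have hpodd : Odd p := hp.odd_of_ne_two (by omega)
  -- `p ^ g` modulo `8` and modulo `3`
  obtain ⟨g', hg'⟩ := hg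
  have hpg : p ^ g = (p ^ 2) ^ g' := by
    rw [hg', ← pow_mul]
    congr 1
    ring
  have h8 : p ^ g % 8 = 1 := by
    rw [hpg, Nat.pow_mod]
    have h1 : p ^ 2 % 8 = 1 := by
      have h2 : p % 8 = 1 ∨ p % 8 = 3 ∨ p % 8 = 5 ∨ p % 8 = 7 := by
        obtain ⟨w, hw⟩ := hpodd
        omega
      rw [Nat.pow_mod]
      rcases h2 with h2 | h2 | h2 | h2 <;> rw [h2]
    rw [h1, one_pow]
    rfl
  have h3 : p ^ g % 3 = 1 := by
    rw [hpg, Nat.pow_mod]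
    have h1 : p ^ 2 % 3 = 1 := by
      have h2 : p % 3 = 1 ∨ p % 3 = 2 := by
        have : ¬ 3 ∣ p := fun h => by
          have := (Nat.prime_dvd_prime_iff_eq Nat.prime_three hp).1 h
          omega
        omega
      rw [Nat.pow_mod]
      rcases h2 with h2 | h2 <;> rw [h2]
    rw [h1, one_pow]
    rfl
  have hAd : Adm ℓ (p ^ g) := by
    rcases hℓ with rfl | rfl
    · exact Or.inr ⟨rfl, by omega⟩
    · exact Or.inl ⟨rfl, h3⟩
  have hn1 : 1 ≤ n ∧ 3 ≤ ℓ ^ n := by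
    rcases hℓ with rfl | rfl
    · have h4 : ¬ 2 ^ (n + 1) ∣ 8 := fun h => hn' (h.trans (by omega))
      have h6 : 3 ≤ n := by
        by_contra hcon
        exact h4 (pow_dvd_pow 2 (show n + 1 ≤ 3 by omega))
      refine ⟨by omega, ?_⟩
      calc 3 ≤ 2 ^ 3 := by norm_num
        _ ≤ 2 ^ n := Nat.pow_le_pow_right (by norm_num) h6
    · have h6 : 1 ≤ n := by
        by_contra hcon
        have : n = 0 := by omega
        subst this
        apply hn'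
        rw [zero_add, pow_one]
        omega
      refine ⟨h6, ?_⟩
      calc 3 = 3 ^ 1 := by norm_num
        _ ≤ 3 ^ n := Nat.pow_le_pow_right (by norm_num) h6
  obtain ⟨u, hu⟩ := hn
  have huc : u.Coprime ℓ := by
    rw [Nat.coprime_comm, Nat.Prime.coprime_iff_not_dvd hℓp]
    rintro ⟨w, hw⟩
    apply hn'
    rw [hu, hw, pow_succ, ← mul_assoc]
    exact dvd_mul_right _ _
  have hnK : 2 * n ≤ K := by
    have h6 : ℓ ^ (2 * n) ≤ ℓ ^ K := by
      calc ℓ ^ (2 * n) = 1 * ℓ ^ (2 * n) := (one_mul _).symm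
        _ ≤ (2 * N₁ + 3) * N₁ * ℓ ^ (2 * n) := Nat.mul_le_mul_right _ (Nat.mul_pos (by omega) (by omega))
        _ ≤ ℓ ^ K := hK
    exact (Nat.pow_le_pow_iff_right hℓp.one_lt).1 h6
  have hcop : N₁.Coprime (ℓ ^ K) := hN₁.pow_right K
  have hpℓ : p ≠ ℓ := by rcases hℓ with rfl | rfl <;> omega
  have hprim := snd_prim hcop hℓp (by omega) hN0 ψ hc
  have hψ₁ : ∀ a, fst hcop ψ a ^ p ^ g = fst hcop ψ a := by
    intro a
    by_cases ha : IsUnit a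
    · obtain ⟨U, rfl⟩ := ha
      obtain ⟨w, hw⟩ := hφ
      have h1 : p ^ g = N₁.totient * w + 1 := by
        have : 1 ≤ p ^ g := Nat.one_le_pow _ _ hp.pos
        omega
      rw [h1, pow_succ, pow_mul, ← map_pow, ← Units.val_pow_eq_pow_val, ZMod.pow_totient, Units.val_one, map_one,
        one_pow, one_mul]
    · rw [MulChar.map_nonunit _ ha, zero_pow]
      exact (Nat.pos_of_ne_zero (pow_ne_zero _ hp.ne_zero)).ne'
  have hN1' : N₁ * ℓ ^ K ≠ 1 := by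
    intro h
    have h6 : ℓ ^ K = 1 := Nat.dvd_one.1 (h ▸ dvd_mul_left (ℓ ^ K) N₁)
    have := Nat.one_lt_pow (n := K) (by omega) hℓp.one_lt
    omega
  have hψ1 : ψ ≠ 1 := by
    have : NeZero (N₁ * ℓ ^ K) := ⟨mul_ne_zero hN0 (pow_ne_zero _ hℓp.ne_zero)⟩
    intro h
    rw [h, DirichletCharacter.conductor_one] at hc
    have := Nat.dvd_one.1 hc
    exact (Nat.one_lt_pow (by omega) hℓp.one_lt).ne' this
  have hsum : ∑ a ∈ range (N₁ * ℓ ^ K), fst hcop ψ (a : ZMod N₁) * snd hcop ψ (a : ZMod (ℓ ^ K)) = 0 := by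
    rw [← sum_char (mul_ne_zero hN0 (pow_ne_zero _ hℓp.ne_zero)) ψ hψ1]
    exact Finset.sum_congr rfl fun a _ => (dec_nat hcop ψ a).symm
  -- the parity of `ψ`
  have hpar : ∃ e : ℕ, ψ (-1) = (-1) ^ e := by
    have h1 : ψ (-1) ^ 2 = 1 := by
      rw [← map_pow, neg_one_sq, map_one]
    have h2 : (ψ (-1) - 1) * (ψ (-1) + 1) = 0 := by linear_combination h1
    rcases mul_eq_zero.1 h2 with h | h
    · exact ⟨0, by rw [sub_eq_zero.1 h, pow_zero]⟩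
    · exact ⟨1, by rw [eq_neg_of_add_eq_zero_left h, pow_one]⟩
  obtain ⟨e, he⟩ := hpar
  refine Pool.Agent.R480.GP.main_gap hp (fst hcop ψ) (snd hcop ψ) (by omega) hAd hn1.1 hnK hn1.2 hu huc hψ₁
    hprim hN₁ hN0 hpℓ h2N hK e A M hA (by omega) hAM (by rw [← dec_neg, he]) hsum B hB
    {m | B.valuation (lValue p m ψ) = 1} ?_
  intro m _ _ hval
  simp only [← dec_nat] at hval
  have e1 : lValue p m ψ = Pool.Agent.Results.MP_c2a07f_nt.FiveAndPowersOfThree.lValue p m ψ := rfl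
  rw [Set.mem_setOf_eq, e1, Pool.Agent.Results.MP_c2a07f_nt.FiveAndPowersOfThree.lValue_eq hN1']
  exact hval

/-- (1) Let `p` be a prime, `2 ≤ N < p`, `2 ≤ A`, `2 A + 2 φ(N) ≤ M + 1`, `M ≤ p - 2`, `ψ` a Dirichlet
character modulo `N` and `B` a valuation ring of `ℂ` with `p` in its maximal ideal. There is an `m` with
`A ≤ m ≤ M` such that `(1 - ψ(p) p^(m-1)) B_{m,ψ} / m` is a unit of `B`.

(2) Let `ℓ = 2` or `ℓ = 3`, `N₁ ≥ 1` prime to `ℓ`, `p ≥ 2 N₁ + 3` a prime, `g` even with `φ(N₁) ∣ p^g - 1`,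
`ℓ^n` the exact power of `ℓ` dividing `p^g - 1` and `(2 N₁ + 3) N₁ ℓ^(2n) ≤ ℓ^K`. Let `2 ≤ A`,
`3 A + 8 φ(N₁) ≤ M + 1`, `M ≤ p - 1`. For every Dirichlet character `ψ` modulo `N₁ ℓ^K` with `ℓ^K ∣ cond ψ` and
every valuation ring `B` of `ℂ` with `p` in its maximal ideal there is an `m` with `A ≤ m ≤ M` such that
`(1 - ψ(p) p^(m-1)) B_{m,ψ} / m` is a unit of `B`. -/
theorem result :
    (∀ (p N A M : ℕ), p.Prime → 2 ≤ N → N < p → 2 ≤ A → 2 * A + 2 * N.totient ≤ M + 1 → M ≤ p - 2 →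
      ∀ (ψ : DirichletCharacter ℂ N) (B : ValuationSubring ℂ), B.valuation (p : ℂ) < 1 →
        ∃ m, A ≤ m ∧ m ≤ M ∧ B.valuation (lValue p m ψ) = 1) ∧
    (∀ (p ℓ N₁ g n K A M : ℕ), p.Prime → (ℓ = 2 ∨ ℓ = 3) → 1 ≤ N₁ → N₁.Coprime ℓ → 2 * N₁ + 3 ≤ p →
      Even g → N₁.totient ∣ p ^ g - 1 → ℓ ^ n ∣ p ^ g - 1 → ¬ ℓ ^ (n + 1) ∣ p ^ g - 1 →
      (2 * N₁ + 3) * N₁ * ℓ ^ (2 * n) ≤ ℓ ^ K → 2 ≤ A → 3 * A + 8 * N₁.totient ≤ M + 1 → M ≤ p - 1 →
      ∀ (ψ : DirichletCharacter ℂ (N₁ * ℓ ^ K)), ℓ ^ K ∣ ψ.conductor →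
        ∀ (B : ValuationSubring ℂ), B.valuation (p : ℂ) < 1 →
          ∃ m, A ≤ m ∧ m ≤ M ∧ B.valuation (lValue p m ψ) = 1) := by
  refine ⟨?_, ?_⟩
  · intro p N A M hp hN hNp hA hAM hM ψ B hB
    have := hp.two_le
    exact part_one p N A M hp hN hNp hA (by omega) hAM ψ B hB
  · intro p ℓ N₁ g n K A M hp hℓ hN1 hN₁ h2N hg hφ hn hn' hK hA hAM hM ψ hc B hB
    exact part_two p ℓ N₁ g n K A M hp hℓ hN1 hN₁ h2N hg hφ hn hn' hK hA hM hAM ψ hc B hB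

end Pool.Agent.Results.MP_c2a07f_nt.EveryInterval
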