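import Mathlib
import Pool.Agent.R480.TC.Val
import Pool.Agent.Results.MP_c2a07f_nt.FiveAndPowersOfThree

/-!
# Greenberg's conjecture: many eigenspaces vanish for every character of level `N₁ 2^K` or `N₁ 3^K`

Let `ℓ` be `2` or `3`, `N₁` prime to `ℓ`, `p ≥ 2 N₁ + 3` a prime and `q` a power of `p²` with `φ(N₁) ∣ q - 1`.
Let `ℓ^n` be the exact power of `ℓ` in `q - 1` and `N₁ (2 N₁ + 3) ℓ^(2n) ≤ ℓ^K`. For every Dirichlet character
`ψ` modulo `N = N₁ ℓ^K` whose conductor is divisible by `ℓ^K` and every place `B` of `ℂ` above `p` the number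
`s` of the `m`, `2 ≤ m ≤ M`, such that the value
`L_p(1 - m, ψ ω^m) = - (1 - ψ(p) p^(m-1)) B_{m,ψ} / m` is a unit at `B` satisfies
`2 M ≤ (4 φ(N₁) + 3) (4 φ(N₁) + 2) (s + 1)²`, for every `M < p`. For these `m` the `p`-adic `L`-function is a
unit and `X_θ = 0`, `θ = ψ ω^m`.

Proof. If the value is not a unit, then the sum over a single class of residues modulo `ℓ^(K-n)` vanishes in
the residue field as well (starting library `Y18/GX`). The generating function of these partial sums is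
`x ∑_{t < N₁} w_t e^{x_t x} / (ξ e^{hx} - 1)`, so the part of the right parity, multiplied by
`(ξ e^{hx} - 1) (ξ - e^{hx})`, is an exponential polynomial with `4 φ(N₁) + 3` frequencies. The class can be
chosen such that one of the frequencies is different from all others modulo `p`, and the zero estimate of
`Pool/Agent/TH350/RC/ZE.lean` gives the bound.
-/

set_option autoImplicit false

namespace Pool.Agent.Results.MP_c2a07f_nt.LargeLevels

open Finset Pool.Agent.Y18.GX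

/-- The generalized Bernoulli number `B_{m,ψ} = N^(m-1) ∑_{a=1}^N ψ(a) B_m(a/N)`. -/
noncomputable def genBernoulli (m : ℕ) {N : ℕ} (ψ : DirichletCharacter ℂ N) : ℂ :=
  (N : ℂ) ^ (m - 1) * ∑ a ∈ Finset.Icc 1 N, ψ (a : ZMod N) *
    (((Polynomial.bernoulli m).eval ((a : ℚ) / N) : ℚ) : ℂ)

/-- `(1 - ψ(p) p^(m-1)) B_{m,ψ} / m`, the value at `1 - m` of the `L`-function of `ψ` without Euler factor
at `p` (up to the sign). -/
noncomputable def lValue (p m : ℕ) {N : ℕ} (ψ : DirichletCharacter ℂ N) : ℂ :=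
  (1 - ψ (p : ZMod N) * (p : ℂ) ^ (m - 1)) * genBernoulli m ψ / m

open Classical in
/-- Let `ℓ = 2` or `ℓ = 3`, `N₁ ≥ 1` prime to `ℓ`, `p ≥ 2 N₁ + 3` a prime, `g` even with `φ(N₁) ∣ p^g - 1`,
`ℓ^n` the exact power of `ℓ` dividing `p^g - 1` and `(2 N₁ + 3) N₁ ℓ^(2n) ≤ ℓ^K`. For every Dirichlet character
`ψ` modulo `N₁ ℓ^K` with `ℓ^K ∣ cond ψ`, every valuation ring `B` of `ℂ` with `p` in its maximal ideal and all
`M ≤ p - 1` the number `s` of the `m`, `2 ≤ m ≤ M`, such that `(1 - ψ(p) p^(m-1)) B_{m,ψ} / m` is a unit of `B`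
satisfies `2 M ≤ (4 φ(N₁) + 3) (4 φ(N₁) + 2) (s + 1)^2`. -/
theorem result (p ℓ N₁ g n K M : ℕ) (hp : p.Prime) (hℓ : ℓ = 2 ∨ ℓ = 3) (hN1 : 1 ≤ N₁)
    (hN₁ : N₁.Coprime ℓ) (h2N : 2 * N₁ + 3 ≤ p) (hg : Even g) (hφ : N₁.totient ∣ p ^ g - 1)
    (hn : ℓ ^ n ∣ p ^ g - 1) (hn' : ¬ ℓ ^ (n + 1) ∣ p ^ g - 1)
    (hK : (2 * N₁ + 3) * N₁ * ℓ ^ (2 * n) ≤ ℓ ^ K) (hM : M ≤ p - 1)
    (ψ : DirichletCharacter ℂ (N₁ * ℓ ^ K)) (hc : ℓ ^ K ∣ ψ.conductor)
    (B : ValuationSubring ℂ) (hB : B.valuation (p : ℂ) < 1) :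
    2 * M ≤ (4 * N₁.totient + 3) * (4 * N₁.totient + 2) *
      ({m ∈ Finset.Icc 2 M | B.valuation (lValue p m ψ) = 1}.card + 1) ^ 2 := by
  have hℓp : ℓ.Prime := by rcases hℓ with rfl | rfl <;> norm_num
  have hN0 : N₁ ≠ 0 := by omega
  have hpodd : Odd p := hp.odd_of_ne_two (by omega)
  -- `p ^ g` modulo `8` and modulo `3`
  obtain ⟨g', hg'⟩ := hg
  have hpg : p ^ g = (p ^ 2) ^ g' := by
    rw [hg', ← pow_mul]
    congr 1
    ring
  have h8 : p ^ g % 8 = 1 := by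
    rw [hpg, Nat.pow_mod]
    have h1 : p ^ 2 % 8 = 1 := by
      have h2 : p % 8 = 1 ∨ p % 8 = 3 ∨ p % 8 = 5 ∨ p % 8 = 7 := by
        obtain ⟨w, hw⟩ := hpodd
        omega
      rw [Nat.pow_mod]
      rcases h2 with h2 | h2 | h2 | h2 <;> rw [h2]
    rw [h1, one_pow]
    rfl
  have h3 : p ^ g % 3 = 1 := by
    rw [hpg, Nat.pow_mod]
    have h1 : p ^ 2 % 3 = 1 := by
      have h2 : p % 3 = 1 ∨ p % 3 = 2 := by
        have : ¬ 3 ∣ p := fun h => by
          have := (Nat.prime_dvd_prime_iff_eq Nat.prime_three hp).1 h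
          omega
        omega
      rw [Nat.pow_mod]
      rcases h2 with h2 | h2 <;> rw [h2]
    rw [h1, one_pow]
    rfl
  have hA : Adm ℓ (p ^ g) := by
    rcases hℓ with rfl | rfl
    · exact Or.inr ⟨rfl, by omega⟩
    · exact Or.inl ⟨rfl, h3⟩
  have hn1 : 1 ≤ n ∧ 3 ≤ ℓ ^ n := by
    rcases hℓ with rfl | rfl
    · have h4 : ¬ 2 ^ (n + 1) ∣ 8 := fun h => hn' (h.trans (by omega))
      have h6 : 3 ≤ n := by
        by_contra hcon
        exact h4 (pow_dvd_pow 2 (show n + 1 ≤ 3 by omega))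
      refine ⟨by omega, ?_⟩
      calc 3 ≤ 2 ^ 3 := by norm_num
        _ ≤ 2 ^ n := Nat.pow_le_pow_right (by norm_num) h6
    · have h6 : 1 ≤ n := by
        by_contra hcon
        have : n = 0 := by omega
        subst this
        apply hn'
        rw [zero_add, pow_one]
        omega
      refine ⟨h6, ?_⟩
      calc 3 = 3 ^ 1 := by norm_num
        _ ≤ 3 ^ n := Nat.pow_le_pow_right (by norm_num) h6
  obtain ⟨u, hu⟩ := hn
  have huc : u.Coprime ℓ := by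
    rw [Nat.coprime_comm, Nat.Prime.coprime_iff_not_dvd hℓp]
    rintro ⟨w, hw⟩
    apply hn'
    rw [hu, hw, pow_succ, ← mul_assoc]
    exact dvd_mul_right _ _
  have hnK : 2 * n ≤ K := by
    have h6 : ℓ ^ (2 * n) ≤ ℓ ^ K := by
      calc ℓ ^ (2 * n) = 1 * ℓ ^ (2 * n) := (one_mul _).symm
        _ ≤ (2 * N₁ + 3) * N₁ * ℓ ^ (2 * n) := Nat.mul_le_mul_right _ (Nat.mul_pos (by omega) (by omega))
        _ ≤ ℓ ^ K := hK
    exact (Nat.pow_le_pow_iff_right hℓp.one_lt).1 h6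
  have hcop : N₁.Coprime (ℓ ^ K) := hN₁.pow_right K
  have hpℓ : p ≠ ℓ := by rcases hℓ with rfl | rfl <;> omega
  have hprim := snd_prim hcop hℓp (by omega) hN0 ψ hc
  have hψ₁ : ∀ a, fst hcop ψ a ^ p ^ g = fst hcop ψ a := by
    intro a
    by_cases ha : IsUnit a
    · obtain ⟨U, rfl⟩ := ha
      obtain ⟨w, hw⟩ := hφ
      have h1 : p ^ g = N₁.totient * w + 1 := by
        have : 1 ≤ p ^ g := Nat.one_le_pow _ _ hp.pos
        omega
      rw [h1, pow_succ, pow_mul, ← map_pow, ← Units.val_pow_eq_pow_val, ZMod.pow_totient, Units.val_one, map_one,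
        one_pow, one_mul]
    · rw [MulChar.map_nonunit _ ha, zero_pow]
      exact (Nat.pos_of_ne_zero (pow_ne_zero _ hp.ne_zero)).ne'
  have hN1' : N₁ * ℓ ^ K ≠ 1 := by
    intro h
    have h6 : ℓ ^ K = 1 := Nat.dvd_one.1 (h ▸ dvd_mul_left (ℓ ^ K) N₁)
    have := Nat.one_lt_pow (n := K) (by omega) hℓp.one_lt
    omega
  have hψ1 : ψ ≠ 1 := by
    have : NeZero (N₁ * ℓ ^ K) := ⟨mul_ne_zero hN0 (pow_ne_zero _ hℓp.ne_zero)⟩
    intro h
    rw [h, DirichletCharacter.conductor_one] at hc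
    have := Nat.dvd_one.1 hc
    exact (Nat.one_lt_pow (by omega) hℓp.one_lt).ne' this
  have hsum : ∑ a ∈ range (N₁ * ℓ ^ K), fst hcop ψ (a : ZMod N₁) * snd hcop ψ (a : ZMod (ℓ ^ K)) = 0 := by
    rw [← sum_char (mul_ne_zero hN0 (pow_ne_zero _ hℓp.ne_zero)) ψ hψ1]
    exact Finset.sum_congr rfl fun a _ => (dec_nat hcop ψ a).symm
  -- the parity of `ψ`
  have hpar : ∃ e : ℕ, ψ (-1) = (-1) ^ e := by
    have h1 : ψ (-1) ^ 2 = 1 := by
      rw [← map_pow, neg_one_sq, map_one]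
    have h2 : (ψ (-1) - 1) * (ψ (-1) + 1) = 0 := by linear_combination h1
    rcases mul_eq_zero.1 h2 with h | h
    · exact ⟨0, by rw [sub_eq_zero.1 h, pow_zero]⟩
    · exact ⟨1, by rw [eq_neg_of_add_eq_zero_left h, pow_one]⟩
  obtain ⟨e, he⟩ := hpar
  refine Pool.Agent.R480.TC.main hp (fst hcop ψ) (snd hcop ψ) (by omega) hA hn1.1 hnK hn1.2 hu huc hψ₁ hprim
    hN₁ hN0 hpℓ h2N hK e M (by omega) (by rw [← dec_neg, he]) hsum B hB _ ?_
  intro m hm2 hmM hval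
  rw [mem_filter, mem_Icc]
  refine ⟨⟨hm2, hmM⟩, ?_⟩
  simp only [← dec_nat] at hval
  have e1 : lValue p m ψ = Pool.Agent.Results.MP_c2a07f_nt.FiveAndPowersOfThree.lValue p m ψ := rfl
  rw [e1, Pool.Agent.Results.MP_c2a07f_nt.FiveAndPowersOfThree.lValue_eq hN1']
  exact hval

end Pool.Agent.Results.MP_c2a07f_nt.LargeLevels
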